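import Pool.Agent.TH194.LS.Pos

/-! The threshold constant in the definition of linear sofic groups. -/

set_option autoImplicit false

universe u

open Pool.Agent.TH194.LS

namespace Pool.Agent.Results.MP_7f7a01_al.ThresholdOneHalf

/-- Let `K` be a field (of any characteristic) and `ε > 0`. The `ε`-approximable countable groups
over `K` are the linear sofic groups over `K` (the `1/4`-approximable groups) if and only if
`ε ≤ 1/2`. In particular `𝒞_ε = 𝒞_{1/4}` for `1/4 < ε ≤ 1/2`, and `𝒞_ε ≠ 𝒞_{1/4}` for
`1/2 < ε < 1`. -/
theorem result (K : Type u) [Field K] (ε : ℝ) (hε : 0 < ε) :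
    (∀ (G : Type) [Group G] [Countable G], Approximable K ε G ↔ Approximable K (1 / 4) G) ↔
      ε ≤ 1 / 2 :=
  threshold K hε

end Pool.Agent.Results.MP_7f7a01_al.ThresholdOneHalf
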